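import Mathlib

/-!
# The function `k`: on each gap `(a,b)` of a compact set `K ⊆ [0,1]` it is `((x-a)(b-x))^2`
-/

open Set Filter Topology

namespace Pool.Agent.Q139.Jet

variable (K : Set ℝ)

noncomputable def lft (x : ℝ) : ℝ := sSup (K ∩ Iic x)
noncomputable def rgt (x : ℝ) : ℝ := sInf (K ∩ Ici x)

open Classical in
noncomputable def kf (x : ℝ) : ℝ :=
  if sInf K ≤ x ∧ x ≤ sSup K then ((x - lft K x) * (rgt K x - x)) ^ 2 else 0

open Classical in
noncomputable def kd (x : ℝ) : ℝ :=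
  if sInf K ≤ x ∧ x ≤ sSup K then
    2 * ((x - lft K x) * (rgt K x - x)) * (lft K x + rgt K x - 2 * x) else 0

variable {K}

theorem sInf_mem' (hK : IsClosed K) (hne : K.Nonempty) (hsub : K ⊆ Icc 0 1) : sInf K ∈ K :=
  hK.csInf_mem hne ⟨0, fun _ hx => (hsub hx).1⟩

theorem sSup_mem' (hK : IsClosed K) (hne : K.Nonempty) (hsub : K ⊆ Icc 0 1) : sSup K ∈ K :=
  hK.csSup_mem hne ⟨1, fun _ hx => (hsub hx).2⟩

theorem sInf_le' (hsub : K ⊆ Icc 0 1) {x : ℝ} (hx : x ∈ K) : sInf K ≤ x :=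
  csInf_le ⟨0, fun _ hx => (hsub hx).1⟩ hx

theorem le_sSup' (hsub : K ⊆ Icc 0 1) {x : ℝ} (hx : x ∈ K) : x ≤ sSup K :=
  le_csSup ⟨1, fun _ hx => (hsub hx).2⟩ hx

theorem lft_mem (hK : IsClosed K) (hne : K.Nonempty) (hsub : K ⊆ Icc 0 1) {x : ℝ}
    (hx : sInf K ≤ x) : lft K x ∈ K ∧ lft K x ≤ x := by
  have h : sSup (K ∩ Iic x) ∈ K ∩ Iic x :=
    (hK.inter isClosed_Iic).csSup_mem ⟨sInf K, sInf_mem' hK hne hsub, hx⟩
      ⟨x, fun _ hy => hy.2⟩
  exact ⟨h.1, h.2⟩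

theorem rgt_mem (hK : IsClosed K) (hne : K.Nonempty) (hsub : K ⊆ Icc 0 1) {x : ℝ}
    (hx : x ≤ sSup K) : rgt K x ∈ K ∧ x ≤ rgt K x := by
  have h : sInf (K ∩ Ici x) ∈ K ∩ Ici x :=
    (hK.inter isClosed_Ici).csInf_mem ⟨sSup K, sSup_mem' hK hne hsub, hx⟩
      ⟨x, fun _ hy => hy.2⟩
  exact ⟨h.1, h.2⟩

theorem le_lft {x y : ℝ} (hy : y ∈ K) (hyx : y ≤ x) : y ≤ lft K x :=
  le_csSup ⟨x, fun _ hy => hy.2⟩ ⟨hy, hyx⟩

theorem rgt_le {x y : ℝ} (hy : y ∈ K) (hyx : x ≤ y) : rgt K x ≤ y :=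
  csInf_le ⟨x, fun _ hy => hy.2⟩ ⟨hy, hyx⟩

theorem lft_self {x : ℝ} (hx : x ∈ K) : lft K x = x :=
  le_antisymm (csSup_le ⟨x, hx, le_refl x⟩ fun _ hy => hy.2) (le_lft hx le_rfl)

theorem rgt_self {x : ℝ} (hx : x ∈ K) : rgt K x = x :=
  le_antisymm (rgt_le hx le_rfl) (le_csInf ⟨x, hx, le_refl x⟩ fun _ hy => hy.2)

theorem lft_gap {a b x : ℝ} (ha : a ∈ K) (hgap : ∀ y ∈ Ioo a b, y ∉ K) (hx : x ∈ Ioo a b) :
    lft K x = a := by
  refine le_antisymm (csSup_le ⟨a, ha, hx.1.le⟩ ?_) (le_lft ha hx.1.le)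
  intro y hy
  by_contra hya
  push Not at hya
  exact hgap y ⟨hya, lt_of_le_of_lt hy.2 hx.2⟩ hy.1

theorem rgt_gap {a b x : ℝ} (hb : b ∈ K) (hgap : ∀ y ∈ Ioo a b, y ∉ K) (hx : x ∈ Ioo a b) :
    rgt K x = b := by
  refine le_antisymm (rgt_le hb hx.2.le) (le_csInf ⟨b, hb, hx.2.le⟩ ?_)
  intro y hy
  by_contra hya
  push Not at hya
  exact hgap y ⟨lt_of_lt_of_le hx.1 hy.2, hya⟩ hy.1

theorem kf_gap (hsub : K ⊆ Icc 0 1) {a b x : ℝ} (ha : a ∈ K) (hb : b ∈ K)
    (hgap : ∀ y ∈ Ioo a b, y ∉ K) (hx : x ∈ Ioo a b) :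
    kf K x = ((x - a) * (b - x)) ^ 2 := by
  have h1 : sInf K ≤ x := (sInf_le' hsub ha).trans hx.1.le
  have h2 : x ≤ sSup K := hx.2.le.trans (le_sSup' hsub hb)
  rw [kf, if_pos ⟨h1, h2⟩, lft_gap ha hgap hx, rgt_gap hb hgap hx]

theorem kd_gap (hsub : K ⊆ Icc 0 1) {a b x : ℝ} (ha : a ∈ K) (hb : b ∈ K)
    (hgap : ∀ y ∈ Ioo a b, y ∉ K) (hx : x ∈ Ioo a b) :
    kd K x = 2 * ((x - a) * (b - x)) * (a + b - 2 * x) := by
  have h1 : sInf K ≤ x := (sInf_le' hsub ha).trans hx.1.le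
  have h2 : x ≤ sSup K := hx.2.le.trans (le_sSup' hsub hb)
  rw [kd, if_pos ⟨h1, h2⟩, lft_gap ha hgap hx, rgt_gap hb hgap hx]

theorem kf_mem {x : ℝ} (hx : x ∈ K) : kf K x = 0 := by
  rw [kf, lft_self hx]; simp

theorem kd_mem {x : ℝ} (hx : x ∈ K) : kd K x = 0 := by
  rw [kd, lft_self hx]; simp

/-- The trichotomy for a point outside `K`. -/
theorem cases_x (hK : IsClosed K) (hne : K.Nonempty) (hsub : K ⊆ Icc 0 1) (x : ℝ) :
    x ∈ K ∨ x < sInf K ∨ sSup K < x ∨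
      ∃ a b, a ∈ K ∧ b ∈ K ∧ (∀ y ∈ Ioo a b, y ∉ K) ∧ x ∈ Ioo a b := by
  by_cases hx : x ∈ K
  · exact Or.inl hx
  rcases lt_or_ge x (sInf K) with h1 | h1
  · exact Or.inr (Or.inl h1)
  rcases lt_or_ge (sSup K) x with h2 | h2
  · exact Or.inr (Or.inr (Or.inl h2))
  refine Or.inr (Or.inr (Or.inr ⟨lft K x, rgt K x, (lft_mem hK hne hsub h1).1,
    (rgt_mem hK hne hsub h2).1, ?_, ?_⟩))
  · intro y hy hyK
    rcases le_total y x with h | h
    · exact absurd (le_lft hyK h) (not_le.mpr hy.1)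
    · exact absurd (rgt_le hyK h) (not_le.mpr hy.2)
  · refine ⟨lt_of_le_of_ne (lft_mem hK hne hsub h1).2 ?_,
      lt_of_le_of_ne (rgt_mem hK hne hsub h2).2 ?_⟩
    · intro h; exact hx (h ▸ (lft_mem hK hne hsub h1).1)
    · intro h; exact hx (h ▸ (rgt_mem hK hne hsub h2).1)

theorem gap_aux {a b x x0 : ℝ} (ha0 : 0 ≤ a) (hb1 : b ≤ 1) (hx : x ∈ Ioo a b)
    (h0 : x0 ∉ Ioo a b) : (x - a) * (b - x) ≤ |x - x0| := by
  have h1 : 0 < x - a := by linarith [hx.1]
  have h2 : 0 < b - x := by linarith [hx.2]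
  have h3 : x - a ≤ 1 := by linarith [hx.2]
  have h4 : b - x ≤ 1 := by linarith [hx.1]
  rcases le_or_gt x0 a with h | h
  · have : x - a ≤ |x - x0| := le_trans (by linarith) (le_abs_self _)
    nlinarith
  · have hb : b ≤ x0 := by
      by_contra hcon
      push Not at hcon
      exact h0 ⟨h, hcon⟩
    have : b - x ≤ |x - x0| := by
      rw [abs_sub_comm]; exact le_trans (by linarith) (le_abs_self _)
    nlinarith

theorem kf_bound (hK : IsClosed K) (hne : K.Nonempty) (hsub : K ⊆ Icc 0 1) {x0 : ℝ}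
    (h0 : x0 ∈ K) (x : ℝ) : |kf K x| ≤ (x - x0) ^ 2 := by
  rcases cases_x hK hne hsub x with h | h | h | ⟨a, b, ha, hb, hgap, hx⟩
  · rw [kf_mem h, abs_zero]; positivity
  · rw [kf, if_neg (fun hh => absurd hh.1 (not_le.mpr h)), abs_zero]; positivity
  · rw [kf, if_neg (fun hh => absurd hh.2 (not_le.mpr h)), abs_zero]; positivity
  · rw [kf_gap hsub ha hb hgap hx, abs_of_nonneg (by positivity), ← sq_abs (x - x0)]
    have h1 : 0 < x - a := by linarith [hx.1]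
    have h2 : 0 < b - x := by linarith [hx.2]
    have := gap_aux (hsub ha).1 (hsub hb).2 hx (fun hh => hgap x0 hh h0)
    exact pow_le_pow_left₀ (by positivity) this 2

theorem kd_bound (hK : IsClosed K) (hne : K.Nonempty) (hsub : K ⊆ Icc 0 1) {x0 : ℝ}
    (h0 : x0 ∈ K) (x : ℝ) : |kd K x| ≤ 2 * |x - x0| := by
  rcases cases_x hK hne hsub x with h | h | h | ⟨a, b, ha, hb, hgap, hx⟩
  · rw [kd_mem h, abs_zero]; positivity
  · rw [kd, if_neg (fun hh => absurd hh.1 (not_le.mpr h)), abs_zero]; positivity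
  · rw [kd, if_neg (fun hh => absurd hh.2 (not_le.mpr h)), abs_zero]; positivity
  · rw [kd_gap hsub ha hb hgap hx]
    have h1 : 0 < x - a := by linarith [hx.1]
    have h2 : 0 < b - x := by linarith [hx.2]
    have h3 := gap_aux (hsub ha).1 (hsub hb).2 hx (fun hh => hgap x0 hh h0)
    have h4 : |a + b - 2 * x| ≤ 1 := by
      rw [abs_le]; constructor <;> linarith [(hsub ha).1, (hsub hb).2, hx.1, hx.2]
    rw [abs_mul, abs_mul, abs_of_pos (show (0:ℝ) < 2 by norm_num), abs_of_pos (mul_pos h1 h2)]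
    have h5 : 0 ≤ |a + b - 2 * x| := abs_nonneg _
    have h6 : 0 < (x - a) * (b - x) := mul_pos h1 h2
    nlinarith

theorem hasDerivAt_kf (hK : IsClosed K) (hne : K.Nonempty) (hsub : K ⊆ Icc 0 1) (x : ℝ) :
    HasDerivAt (kf K) (kd K x) x := by
  rcases cases_x hK hne hsub x with h | h | h | ⟨a, b, ha, hb, hgap, hx⟩
  · rw [kd_mem h, hasDerivAt_iff_isLittleO]
    simp only [kf_mem h, sub_zero, smul_zero]
    have h1 : (fun y => kf K y) =O[𝓝 x] fun y => (y - x) ^ 2 := by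
      refine Asymptotics.IsBigO.of_bound 1 (Eventually.of_forall fun y => ?_)
      rw [Real.norm_eq_abs, Real.norm_eq_abs, one_mul, abs_of_nonneg (sq_nonneg (y - x))]
      exact kf_bound hK hne hsub h y
    refine h1.trans_isLittleO ?_
    have h2 : (fun y : ℝ => (y - x) ^ 2) =o[𝓝 x] fun y => (y - x) := by
      have := (Asymptotics.isLittleO_pow_id (𝕜 := ℝ) (show 1 < 2 by norm_num)).comp_tendsto
        (show Tendsto (fun y : ℝ => y - x) (𝓝 x) (𝓝 0) by
          have : Tendsto (fun y : ℝ => y - x) (𝓝 x) (𝓝 (x - x)) :=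
            (continuous_id.sub continuous_const).tendsto x
          simpa using this)
      simpa [Function.comp_def] using this
    exact h2
  · have h1 : kd K x = 0 := by rw [kd, if_neg (fun hh => absurd hh.1 (not_le.mpr h))]
    rw [h1]
    refine (hasDerivAt_const x (0:ℝ)).congr_of_eventuallyEq ?_
    filter_upwards [Iio_mem_nhds h] with y hy
    rw [kf, if_neg (fun hh => absurd hh.1 (not_le.mpr hy))]
  · have h1 : kd K x = 0 := by rw [kd, if_neg (fun hh => absurd hh.2 (not_le.mpr h))]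
    rw [h1]
    refine (hasDerivAt_const x (0:ℝ)).congr_of_eventuallyEq ?_
    filter_upwards [Ioi_mem_nhds h] with y hy
    rw [kf, if_neg (fun hh => absurd hh.2 (not_le.mpr hy))]
  · rw [kd_gap hsub ha hb hgap hx]
    have h1 : HasDerivAt (fun y => ((y - a) * (b - y)) ^ 2)
        (2 * ((x - a) * (b - x)) * (a + b - 2 * x)) x := by
      have h2 : HasDerivAt (fun y : ℝ => y - a) 1 x := (hasDerivAt_id x).sub_const a
      have h3 : HasDerivAt (fun y : ℝ => b - y) (-1) x := by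
        simpa using (hasDerivAt_id x).const_sub b
      have h4 := (h2.mul h3).pow 2
      refine h4.congr_deriv ?_
      show (((2:ℕ):ℝ) * ((x - a) * (b - x)) ^ (2-1) * (1 * (b - x) + (x - a) * -1)) = _
      push_cast
      ring
    refine h1.congr_of_eventuallyEq ?_
    filter_upwards [Ioo_mem_nhds hx.1 hx.2] with y hy
    exact kf_gap hsub ha hb hgap hy

theorem continuous_kd (hK : IsClosed K) (hne : K.Nonempty) (hsub : K ⊆ Icc 0 1) :
    Continuous (kd K) := by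
  rw [continuous_iff_continuousAt]
  intro x
  rcases cases_x hK hne hsub x with h | h | h | ⟨a, b, ha, hb, hgap, hx⟩
  · rw [ContinuousAt, kd_mem h]
    refine squeeze_zero_norm (a := fun y => 2 * |y - x|) (fun y => ?_) ?_
    · exact kd_bound hK hne hsub h y
    · have : Continuous (fun y => 2 * |y - x|) := by fun_prop
      simpa using this.tendsto x
  · have h1 : kd K =ᶠ[𝓝 x] fun _ => 0 := by
      filter_upwards [Iio_mem_nhds h] with y hy
      rw [kd, if_neg (fun hh => absurd hh.1 (not_le.mpr hy))]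
    exact continuousAt_const.congr h1.symm
  · have h1 : kd K =ᶠ[𝓝 x] fun _ => 0 := by
      filter_upwards [Ioi_mem_nhds h] with y hy
      rw [kd, if_neg (fun hh => absurd hh.2 (not_le.mpr hy))]
    exact continuousAt_const.congr h1.symm
  · have h1 : kd K =ᶠ[𝓝 x] fun y => 2 * ((y - a) * (b - y)) * (a + b - 2 * y) := by
      filter_upwards [Ioo_mem_nhds hx.1 hx.2] with y hy
      exact kd_gap hsub ha hb hgap hy
    have h2 : Continuous (fun y => 2 * ((y - a) * (b - y)) * (a + b - 2 * y)) := by fun_prop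
    exact h2.continuousAt.congr h1.symm

theorem contDiff_kf (hK : IsClosed K) (hne : K.Nonempty) (hsub : K ⊆ Icc 0 1) :
    ContDiff ℝ 1 (kf K) := by
  rw [contDiff_one_iff_deriv]
  refine ⟨fun x => (hasDerivAt_kf hK hne hsub x).differentiableAt, ?_⟩
  have : deriv (kf K) = kd K := funext fun x => (hasDerivAt_kf hK hne hsub x).deriv
  rw [this]
  exact continuous_kd hK hne hsub

variable (K) in
/-- The primitive of `kf`. -/
noncomputable def Phi (x : ℝ) : ℝ := ∫ t in (0:ℝ)..x, kf K t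

theorem hasDerivAt_Phi (hK : IsClosed K) (hne : K.Nonempty) (hsub : K ⊆ Icc 0 1) (x : ℝ) :
    HasDerivAt (Phi K) (kf K x) x :=
  intervalIntegral.integral_hasDerivAt_right
    ((contDiff_kf hK hne hsub).continuous.intervalIntegrable _ _)
    ((contDiff_kf hK hne hsub).continuous.stronglyMeasurableAtFilter _ _)
    (contDiff_kf hK hne hsub).continuous.continuousAt

theorem contDiff_Phi (hK : IsClosed K) (hne : K.Nonempty) (hsub : K ⊆ Icc 0 1) :
    ContDiff ℝ 2 (Phi K) := by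
  have h : (2 : WithTop ℕ∞) = 1 + 1 := by norm_num
  rw [h, contDiff_succ_iff_deriv]
  refine ⟨fun x => (hasDerivAt_Phi hK hne hsub x).differentiableAt, by simp, ?_⟩
  have : deriv (Phi K) = kf K := funext fun x => (hasDerivAt_Phi hK hne hsub x).deriv
  rw [this]
  exact contDiff_kf hK hne hsub

end Pool.Agent.Q139.Jet
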