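import Mathlib

/-!
# A perfect nowhere dense compact set and a `C¹` function vanishing on it
-/

open Set Filter Topology

namespace Pool.Agent.Q139.Jet

theorem not_countable_cantorSet : ¬ cantorSet.Countable := by
  intro h
  have h1 : Countable cantorSet := h.to_subtype
  have h2 : Countable (ℕ → Bool) := cantorSetEquivNatToBool.symm.injective.countable
  have h3 : Cardinal.mk (ℕ → Bool) ≤ Cardinal.aleph0 := Cardinal.mk_le_aleph0_iff.mpr h2
  have h4 : Cardinal.aleph0 < Cardinal.mk (ℕ → Bool) := by
    have : Cardinal.mk (ℕ → Bool) = 2 ^ Cardinal.aleph0 := by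
      rw [← Cardinal.power_def]; simp
    rw [this]
    exact Cardinal.cantor _
  exact absurd h3 (not_le.mpr h4)

theorem isTotallyDisconnected_cantorSet : IsTotallyDisconnected cantorSet := by
  have h : IsTotallyDisconnected ((cantorSetHomeomorphNatToBool) '' (univ : Set cantorSet)) :=
    isTotallyDisconnected_of_totallyDisconnectedSpace _
  have h2 : IsTotallyDisconnected (univ : Set cantorSet) :=
    isTotallyDisconnected_of_image cantorSetHomeomorphNatToBool.continuous.continuousOn
      cantorSetHomeomorphNatToBool.injective h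
  have h3 : TotallyDisconnectedSpace cantorSet := ⟨h2⟩
  exact totallyDisconnectedSpace_subtype_iff.mp h3

/-- A compact perfect nonempty subset of `[0,1]` that contains no interval. -/
theorem exists_K : ∃ K : Set ℝ, Perfect K ∧ K.Nonempty ∧ K ⊆ Icc 0 1 ∧
    ∀ x y : ℝ, x < y → ∃ q ∈ Ioo x y, q ∉ K := by
  obtain ⟨K, hK, hne, hsub⟩ := exists_perfect_nonempty_of_isClosed_of_not_countable
    isClosed_cantorSet not_countable_cantorSet
  refine ⟨K, hK, hne, hsub.trans cantorSet_subset_unitInterval, ?_⟩
  intro x y hxy
  by_contra hcon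
  push Not at hcon
  have h1 : Ioo x y ⊆ cantorSet := fun q hq => hsub (hcon q hq)
  have h2 : (Ioo x y).Subsingleton :=
    isTotallyDisconnected_cantorSet (Ioo x y) h1 isPreconnected_Ioo
  have h3 : (2 * x + y) / 3 ∈ Ioo x y := ⟨by linarith, by linarith⟩
  have h4 : (x + 2 * y) / 3 ∈ Ioo x y := ⟨by linarith, by linarith⟩
  have := h2 h3 h4
  linarith

end Pool.Agent.Q139.Jet
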