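import Pool.Agent.Q139.Jet.Main

open Set Filter Topology

namespace Pool.Agent.Q139.Jet

/-- Compact pieces of charts are neighbourhoods in the submanifold. -/
theorem compact_chart {E : Type*} [NormedAddCommGroup E] [NormedSpace ℝ E] {s d : ℕ}
    {S : Set E} (hS : IsSubmanifold s d S) {z : E} (hz : z ∈ S) :
    ∃ (W : Set (EuclideanSpace ℝ (Fin d))) (φ : EuclideanSpace ℝ (Fin d) → E)
      (C : Set (EuclideanSpace ℝ (Fin d))),
      IsOpen W ∧ ContDiffOn ℝ s φ W ∧ (∀ u ∈ W, Function.Injective (fderiv ℝ φ u)) ∧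
      IsEmbedding (W.domRestrict φ) ∧ φ '' W ⊆ S ∧ C ⊆ W ∧ IsCompact C ∧ φ '' C ∈ 𝓝[S] z := by
  obtain ⟨U, W, φ, hU, hzU, hW, hφ, hinj, hemb, him⟩ := hS z hz
  obtain ⟨u, huW, rfl⟩ : z ∈ φ '' W := by rw [him]; exact ⟨hz, hzU⟩
  obtain ⟨r, hr, hball⟩ := Metric.isOpen_iff.mp hW u huW
  refine ⟨W, φ, Metric.closedBall u (r / 2), hW, hφ, hinj, hemb, ?_, ?_,
    isCompact_closedBall _ _, ?_⟩
  · rw [him]; exact inter_subset_left
  · exact (Metric.closedBall_subset_ball (by linarith)).trans hball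
  · have h1 : {w : W | (w : EuclideanSpace ℝ (Fin d)) ∈ Metric.closedBall u (r / 2)} ∈
        𝓝 (⟨u, huW⟩ : W) :=
      continuous_subtype_val.continuousAt.preimage_mem_nhds
        (Metric.closedBall_mem_nhds _ (by linarith))
    rw [hemb.isInducing.nhds_eq_comap, mem_comap] at h1
    obtain ⟨V, hV, hVsub⟩ := h1
    have hV' : V ∈ 𝓝 (φ u) := hV
    rw [mem_nhdsWithin_iff_exists_mem_nhds_inter]
    refine ⟨V ∩ U, inter_mem hV' (hU.mem_nhds hzU), ?_⟩
    rintro y ⟨⟨hyV, hyU⟩, hyS⟩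
    obtain ⟨w, hw, rfl⟩ : y ∈ φ '' W := by rw [him]; exact ⟨hyS, hyU⟩
    have h5 : W.domRestrict φ ⟨w, hw⟩ ∈ V := hyV
    have h6 := @hVsub ⟨w, hw⟩ h5
    have h7 : w ∈ Metric.closedBall u (r / 2) := h6
    exact mem_image_of_mem φ h7

variable {K : Set ℝ}

theorem hasDerivAt_P (hK : IsClosed K) (hne : K.Nonempty) (hsub : K ⊆ Icc 0 1) {x : ℝ}
    (hx : x ∈ K) : HasDerivAt (P K) ((1:ℝ), (0:ℝ), (0:ℝ), (0:ℝ)) x := by
  have h := hasDerivAt_Phi hK hne hsub x
  rw [kf_mem hx] at h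
  exact (hasDerivAt_id x).prodMk (h.prodMk ((hasDerivAt_const _ _).prodMk (hasDerivAt_const _ _)))

theorem continuous_P (hK : IsClosed K) (hne : K.Nonempty) (hsub : K ⊆ Icc 0 1) :
    Continuous (P K) := by
  have h : Continuous (Phi K) := (contDiff_Phi hK hne hsub).continuous
  exact continuous_id.prodMk (h.prodMk (continuous_const.prodMk continuous_const))

/-- The tangent direction `e_x` belongs to the range of the derivative of the chart. -/
theorem range_mem (hK : IsClosed K) (hne : K.Nonempty) (hsub : K ⊆ Icc 0 1) {d : ℕ}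
    {W : Set (EuclideanSpace ℝ (Fin d))} {φ : EuclideanSpace ℝ (Fin d) → J2}
    (hW : IsOpen W) (hφ : ContDiffOn ℝ 1 φ W)
    (hinj : ∀ u ∈ W, Function.Injective (fderiv ℝ φ u)) (hemb : IsEmbedding (W.domRestrict φ))
    {O : Set ℝ} (hO : IsOpen O) (hcov : ∀ x ∈ K ∩ O, P K x ∈ φ '' W) {a : ℝ} (ha : a ∈ K ∩ O)
    (hacc : AccPt a (𝓟 K)) :
    ∃ u ∈ W, φ u = P K a ∧ ((1:ℝ), (0:ℝ), (0:ℝ), (0:ℝ)) ∈ Set.range (fderiv ℝ φ u) := by
  obtain ⟨ua, hua, hφa⟩ := hcov a ha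
  refine ⟨ua, hua, hφa, ?_⟩
  have : Nonempty W := ⟨⟨ua, hua⟩⟩
  have hcov' : ∀ x, x ∈ K ∩ O → ∃ w : W, φ w = P K x := by
    intro x hx
    obtain ⟨w, hw, h⟩ := hcov x hx
    exact ⟨⟨w, hw⟩, h⟩
  choose! u hu using hcov'
  set F : Filter ℝ := 𝓝[≠] a ⊓ 𝓟 K with hF
  have : NeBot F := hacc
  have hFa : F ≤ 𝓝 a := inf_le_left.trans nhdsWithin_le_nhds
  have hFK : ∀ᶠ x in F, x ∈ K := Filter.mem_inf_of_right (mem_principal_self K)
  have hFO : ∀ᶠ x in F, x ∈ O := hFa (hO.mem_nhds ha.2)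
  have hFne : ∀ᶠ x in F, x ≠ a := Filter.mem_inf_of_left self_mem_nhdsWithin
  have hFu : ∀ᶠ x in F, φ (u x) = P K x := by
    filter_upwards [hFK, hFO] with x h1 h2 using hu x ⟨h1, h2⟩
  have hut : Tendsto u F (𝓝 ⟨ua, hua⟩) := by
    rw [hemb.tendsto_nhds_iff]
    have h1 : Tendsto (P K) F (𝓝 (P K a)) :=
      ((continuous_P hK hne hsub).tendsto a).mono_left hFa
    have h2 : W.domRestrict φ ⟨ua, hua⟩ = P K a := hφa
    rw [h2]
    refine h1.congr' ?_
    filter_upwards [hFu] with x hx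
    exact hx.symm
  have hut' : Tendsto (fun x => (u x : EuclideanSpace ℝ (Fin d))) F (𝓝 ua) :=
    (continuous_subtype_val.tendsto _).comp hut
  set T := fderiv ℝ φ ua with hT
  have hd : HasFDerivAt φ T ua :=
    ((hφ.differentiableOn (by norm_num)).differentiableAt (hW.mem_nhds hua)).hasFDerivAt
  have ho : (fun x => φ (u x) - φ ua - T ((u x : EuclideanSpace ℝ (Fin d)) - ua)) =o[F]
      fun x => (u x : EuclideanSpace ℝ (Fin d)) - ua := hd.isLittleO.comp_tendsto hut'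
  obtain ⟨c, hc, hanti⟩ := LinearMap.exists_antilipschitzWith (T : EuclideanSpace ℝ (Fin d) →ₗ[ℝ] J2)
    (LinearMap.ker_eq_bot.mpr (hinj ua hua))
  have hO1 : (fun x => (u x : EuclideanSpace ℝ (Fin d)) - ua) =O[F]
      fun x => T ((u x : EuclideanSpace ℝ (Fin d)) - ua) := by
    refine Asymptotics.IsBigO.of_bound c (Eventually.of_forall fun x => ?_)
    have := hanti.le_mul_dist (u x : EuclideanSpace ℝ (Fin d)) ua
    rw [dist_eq_norm, dist_eq_norm] at this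
    simpa using this
  have hO2 : (fun x => T ((u x : EuclideanSpace ℝ (Fin d)) - ua)) =O[F]
      fun x => φ (u x) - φ ua := by
    have h1 := (ho.trans_isBigO hO1).right_isBigO_add
    refine h1.congr_right fun x => ?_
    abel
  have hP : (fun x => P K x - P K a - (x - a) • ((1:ℝ), (0:ℝ), (0:ℝ), (0:ℝ))) =o[F]
      fun x => x - a :=
    (hasDerivAt_iff_isLittleO.mp (hasDerivAt_P hK hne hsub ha.1)).mono hFa
  have hP2 : (fun x => P K x - P K a) =O[F] fun x => x - a :=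
    (hasDerivAt_P hK hne hsub ha.1).isBigO_sub.mono hFa
  have hP3 : (fun x => φ (u x) - φ ua) =O[F] fun x => x - a := by
    refine hP2.congr' ?_ (EventuallyEq.refl _ _)
    filter_upwards [hFu] with x hx
    rw [hx, hφa]
  have ho2 : (fun x => φ (u x) - φ ua - T ((u x : EuclideanSpace ℝ (Fin d)) - ua)) =o[F]
      fun x => x - a := ho.trans_isBigO ((hO1.trans hO2).trans hP3)
  have ho3 : (fun x => T ((u x : EuclideanSpace ℝ (Fin d)) - ua) -
      (x - a) • ((1:ℝ), (0:ℝ), (0:ℝ), (0:ℝ))) =o[F] fun x => x - a := by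
    have h1 := hP.sub ho2
    refine h1.congr' ?_ (EventuallyEq.refl _ _)
    filter_upwards [hFu] with x hx
    rw [hx, hφa]
    abel
  have ht := ho3.tendsto_inv_smul_nhds_zero
  have ht2 : Tendsto (fun x => T ((x - a)⁻¹ • ((u x : EuclideanSpace ℝ (Fin d)) - ua))) F
      (𝓝 ((1:ℝ), (0:ℝ), (0:ℝ), (0:ℝ))) := by
    have h1 := ht.add_const ((1:ℝ), (0:ℝ), (0:ℝ), (0:ℝ))
    rw [zero_add] at h1
    refine h1.congr' ?_
    filter_upwards [hFne] with x hx
    have hx' : x - a ≠ 0 := sub_ne_zero.mpr hx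
    rw [map_smul, smul_sub, smul_smul, inv_mul_cancel₀ hx', one_smul]
    abel
  have hcl : IsClosed ((LinearMap.range (T : EuclideanSpace ℝ (Fin d) →ₗ[ℝ] J2) : Submodule ℝ J2) : Set J2) :=
    Submodule.closed_of_finiteDimensional _
  have := hcl.mem_of_tendsto ht2 (Eventually.of_forall fun x => ⟨_, rfl⟩)
  exact this

end Pool.Agent.Q139.Jet
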