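import Mathlib

/-!
# Jets of functions `ℝ → ℝ`, embedded submanifolds and the non-transversality set
-/

open Set Filter Topology

namespace Pool.Agent.Q139.Jet

/-- The jet manifold `J¹(ℝ,ℝ)`, in its global chart `(x, f x, f' x)`. -/
abbrev J1 := ℝ × ℝ × ℝ

/-- The jet manifold `J²(ℝ,ℝ)`, in its global chart `(x, f x, f' x, f'' x)`. -/
abbrev J2 := ℝ × ℝ × ℝ × ℝ

/-- The 1-jet extension. -/
noncomputable def j1 (f : ℝ → ℝ) (x : ℝ) : J1 := (x, f x, deriv f x)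

/-- The 2-jet extension. -/
noncomputable def j2 (f : ℝ → ℝ) (x : ℝ) : J2 := (x, f x, deriv f x, deriv (deriv f) x)

/-- `S` is an embedded `C^s` submanifold of dimension `d` of the normed space `E` (`s ≥ 1`):
near each of its points it is the image of an injective `C^s` immersion of an open set of `ℝ^d`
that is a homeomorphism onto its image. -/
def IsSubmanifold {E : Type*} [NormedAddCommGroup E] [NormedSpace ℝ E] (s d : ℕ)
    (S : Set E) : Prop :=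
  ∀ p ∈ S, ∃ (U : Set E) (W : Set (EuclideanSpace ℝ (Fin d)))
    (φ : EuclideanSpace ℝ (Fin d) → E),
    IsOpen U ∧ p ∈ U ∧ IsOpen W ∧ ContDiffOn ℝ s φ W ∧
    (∀ u ∈ W, Function.Injective (fderiv ℝ φ u)) ∧
    IsEmbedding (W.domRestrict φ) ∧ φ '' W = S ∩ U

/-- Velocities at `b` of curves in `A` through `b`: for a submanifold `A` this is the tangent
space `T_b A`. -/
def tangent {E : Type*} [NormedAddCommGroup E] [NormedSpace ℝ E] (A : Set E) (b : E) : Set E :=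
  {v | ∃ γ : ℝ → E, γ 0 = b ∧ (∀ t, γ t ∈ A) ∧ HasDerivAt γ v 0}

/-- The set `Ã ⊆ J²(ℝ,ℝ)` of the 2-jets `j²_x f` of smooth `f` such that `j¹_x f ∈ A` and `j¹ f` is
not transverse to `A` at `x`: `d_x(j¹f)(ℝ) + T_b A ≠ T_b J¹(ℝ,ℝ)` with `b = j¹_x f`. -/
def tilde (A : Set J1) : Set J2 :=
  {z | ∃ f : ℝ → ℝ, ContDiff ℝ (⊤ : ℕ∞) f ∧ ∃ x : ℝ, z = j2 f x ∧ j1 f x ∈ A ∧
    LinearMap.range (fderiv ℝ (j1 f) x : ℝ →ₗ[ℝ] J1) ⊔
      Submodule.span ℝ (tangent A (j1 f x)) ≠ ⊤}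

end Pool.Agent.Q139.Jet
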