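import Pool.Agent.Q139.Jet.Core

open Set Filter Topology

namespace Pool.Agent.Q139.Jet

variable {K : Set ℝ}

/-- Inside an open set meeting `K` there is a gap `(a,b)` of `K` with `a` in that open set. -/
theorem exists_gap (hK : IsClosed K) (hne : K.Nonempty) (hsub : K ⊆ Icc 0 1)
    (hperf : Preperfect K) (hnd : ∀ x y : ℝ, x < y → ∃ q ∈ Ioo x y, q ∉ K)
    {O : Set ℝ} (hO : IsOpen O) (hKO : (K ∩ O).Nonempty) :
    ∃ a b, a ∈ K ∩ O ∧ b ∈ K ∧ a < b ∧ ∀ y ∈ Ioo a b, y ∉ K := by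
  obtain ⟨x0, hx0, hx0O⟩ := hKO
  obtain ⟨ε, hε, hball⟩ := Metric.isOpen_iff.mp hO x0 hx0O
  have hacc : AccPt x0 (𝓟 K) := hperf x0 hx0
  rw [accPt_iff_nhds] at hacc
  obtain ⟨x', ⟨hx'b, hx'K⟩, hx'ne⟩ := hacc (Metric.ball x0 ε) (Metric.ball_mem_nhds x0 hε)
  -- two points x1 < x2 of K in the ball
  obtain ⟨x1, x2, h1K, h2K, h1b, h2b, h12⟩ : ∃ x1 x2, x1 ∈ K ∧ x2 ∈ K ∧
      x1 ∈ Metric.ball x0 ε ∧ x2 ∈ Metric.ball x0 ε ∧ x1 < x2 := by
    rcases lt_or_gt_of_ne hx'ne with h | h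
    · exact ⟨x', x0, hx'K, hx0, hx'b, Metric.mem_ball_self hε, h⟩
    · exact ⟨x0, x', hx0, hx'K, Metric.mem_ball_self hε, hx'b, h⟩
  obtain ⟨q, hq, hqK⟩ := hnd x1 x2 h12
  have hq1 : sInf K ≤ q := (sInf_le' hsub h1K).trans hq.1.le
  have hq2 : q ≤ sSup K := hq.2.le.trans (le_sSup' hsub h2K)
  obtain ⟨haK, haq⟩ := lft_mem hK hne hsub hq1
  obtain ⟨hbK, hbq⟩ := rgt_mem hK hne hsub hq2
  have haq' : lft K q < q := lt_of_le_of_ne haq fun h => hqK (h ▸ haK)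
  have hbq' : q < rgt K q := lt_of_le_of_ne hbq fun h => hqK (h ▸ hbK)
  have hx1a : x1 ≤ lft K q := le_lft h1K hq.1.le
  refine ⟨lft K q, rgt K q, ⟨haK, hball ?_⟩, hbK, haq'.trans hbq', ?_⟩
  · rw [Real.ball_eq_Ioo] at h1b h2b ⊢
    exact ⟨lt_of_lt_of_le h1b.1 hx1a, lt_trans haq' (hq.2.trans h2b.2)⟩
  · intro y hy hyK
    rcases le_total y q with h | h
    · exact absurd (le_lft hyK h) (not_le.mpr hy.1)
    · exact absurd (rgt_le hyK h) (not_le.mpr hy.2)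

theorem small_of_hasDerivAt {g : ℝ → ℝ} {c D : ℝ} (h : HasDerivAt g D 0) (h0 : g 0 = c)
    {ε : ℝ} (hε : 0 < ε) : ∀ᶠ t in 𝓝 (0:ℝ), |g t - c - t * D| ≤ ε * |t| := by
  have h1 := hasDerivAt_iff_isLittleO.mp h
  have h2 := h1.def hε
  filter_upwards [h2] with t ht
  simpa [h0] using ht

theorem no_chart (hK : IsClosed K) (hne : K.Nonempty) (hsub : K ⊆ Icc 0 1)
    (hperf : Preperfect K) (hnd : ∀ x y : ℝ, x < y → ∃ q ∈ Ioo x y, q ∉ K) {d : ℕ}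
    {W : Set (EuclideanSpace ℝ (Fin d))} {φ : EuclideanSpace ℝ (Fin d) → J2}
    (hW : IsOpen W) (hφ : ContDiffOn ℝ 1 φ W)
    (hinj : ∀ u ∈ W, Function.Injective (fderiv ℝ φ u)) (hemb : IsEmbedding (W.domRestrict φ))
    (hA : φ '' W ⊆ tilde (surf K))
    {O : Set ℝ} (hO : IsOpen O) (hcov : ∀ x ∈ K ∩ O, P K x ∈ φ '' W)
    (hKO : (K ∩ O).Nonempty) : False := by
  obtain ⟨a, b, ha, hb, hab, hgap⟩ := exists_gap hK hne hsub hperf hnd hO hKO
  obtain ⟨u, hu, hφu, η, hη⟩ := range_mem hK hne hsub hW hφ hinj hemb hO hcov ha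
    (hperf a ha.1)
  have hd : HasFDerivAt φ (fderiv ℝ φ u) u :=
    ((hφ.differentiableOn (by norm_num)).differentiableAt (hW.mem_nhds hu)).hasFDerivAt
  have hline : HasDerivAt (fun t : ℝ => u + t • η) η 0 := by
    have h1 : HasDerivAt (fun t : ℝ => t • η) ((1:ℝ) • η) 0 := (hasDerivAt_id (0:ℝ)).smul_const η
    rw [one_smul] at h1
    exact h1.const_add u
  have hc : HasDerivAt (fun t : ℝ => φ (u + t • η)) ((1:ℝ), (0:ℝ), (0:ℝ), (0:ℝ)) 0 := by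
    have h1 : HasFDerivAt φ (fderiv ℝ φ u) (u + (0:ℝ) • η) := by simpa using hd
    have h2 := h1.comp_hasDerivAt (0:ℝ) hline
    rw [hη] at h2
    exact h2
  have h1 : HasDerivAt (fun t : ℝ => (φ (u + t • η)).1) 1 0 := by
    simpa [Function.comp_def] using (hasFDerivAt_fst (𝕜 := ℝ)).comp_hasDerivAt (0:ℝ) hc
  have h2 : HasDerivAt (fun t : ℝ => (φ (u + t • η)).2) ((0:ℝ), (0:ℝ), (0:ℝ)) 0 := by
    simpa [Function.comp_def] using (hasFDerivAt_snd (𝕜 := ℝ)).comp_hasDerivAt (0:ℝ) hc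
  have h3 : HasDerivAt (fun t : ℝ => (φ (u + t • η)).2.2) ((0:ℝ), (0:ℝ)) 0 := by
    simpa [Function.comp_def] using (hasFDerivAt_snd (𝕜 := ℝ)).comp_hasDerivAt (0:ℝ) h2
  have h4 : HasDerivAt (fun t : ℝ => (φ (u + t • η)).2.2.1) (0:ℝ) 0 := by
    simpa [Function.comp_def] using (hasFDerivAt_fst (𝕜 := ℝ)).comp_hasDerivAt (0:ℝ) h3
  have h5 : HasDerivAt (fun t : ℝ => (φ (u + t • η)).2.2.2) (0:ℝ) 0 := by
    simpa [Function.comp_def] using (hasFDerivAt_snd (𝕜 := ℝ)).comp_hasDerivAt (0:ℝ) h3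
  set ε : ℝ := (b - a) / 8 with hεdef
  have hε : 0 < ε := by rw [hεdef]; linarith
  have hba : b - a ≤ 1 := by linarith [(hsub ha.1).1, (hsub hb).2]
  have hx := small_of_hasDerivAt (c := a) h1 (by simp [hφu, P]) hε
  have hv := small_of_hasDerivAt (c := 0) h4 (by simp [hφu, P]) hε
  have hw := small_of_hasDerivAt (c := 1) h5 (by simp [hφu, P]) hε
  have hmem : ∀ᶠ t in 𝓝 (0:ℝ), u + t • η ∈ W := by
    have h6 : Tendsto (fun t : ℝ => u + t • η) (𝓝 0) (𝓝 (u + (0:ℝ) • η)) :=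
      hline.continuousAt.tendsto
    have h7 : W ∈ 𝓝 (u + (0:ℝ) • η) := by simpa using hW.mem_nhds hu
    exact h6 h7
  have hsmall : ∀ᶠ t in 𝓝 (0:ℝ), t < (b - a) / 4 := Iio_mem_nhds (by linarith)
  have hall := hx.and (hv.and (hw.and (hmem.and hsmall)))
  have hall' : ∀ᶠ t in 𝓝[>] (0:ℝ), _ := hall.filter_mono nhdsWithin_le_nhds
  obtain ⟨t, ⟨hx, hv, hw, hmem, hsmall⟩, htpos⟩ := (hall'.and self_mem_nhdsWithin).exists
  have ht : (0:ℝ) < t := htpos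
  have heq := mem_tilde hK hne hsub (hA ⟨_, hmem, rfl⟩)
  set x := (φ (u + t • η)).1 with hxdef
  set v := (φ (u + t • η)).2.2.1 with hvdef
  set w := (φ (u + t • η)).2.2.2 with hwdef
  rw [abs_of_pos ht] at hx hv hw
  simp only [mul_one, mul_zero, sub_zero] at hx hv hw
  have hε1 : ε ≤ 1 / 8 := by rw [hεdef]; linarith
  have hεt : ε * t ≤ t / 8 := by nlinarith
  have hxa : t / 2 ≤ x - a := by
    have := (abs_le.mp hx).1
    linarith
  have hxb : (b - a) / 2 ≤ b - x := by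
    have := (abs_le.mp hx).2
    linarith
  have hxmem : x ∈ Ioo a b := ⟨by linarith, by linarith⟩
  rw [kf_gap hsub ha.1 hb hgap hxmem] at heq
  have h6 : (t / 2) * ((b - a) / 2) ≤ (x - a) * (b - x) := by
    apply mul_le_mul hxa hxb (by linarith) (by linarith)
  have h7 : ((t / 2) * ((b - a) / 2)) ^ 2 ≤ ((x - a) * (b - x)) ^ 2 := by
    apply pow_le_pow_left₀ _ h6
    have : 0 < b - a := by linarith
    positivity
  have h8 : v * (1 - w) ≤ (ε * t) * (ε * t) := by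
    calc v * (1 - w) ≤ |v * (1 - w)| := le_abs_self _
      _ = |v| * |w - 1| := by rw [abs_mul, abs_sub_comm 1 w]
      _ ≤ (ε * t) * (ε * t) := mul_le_mul hv hw (abs_nonneg _) (by positivity)
  have h9 : ((t / 2) * ((b - a) / 2)) ^ 2 = 4 * ((ε * t) * (ε * t)) := by
    rw [hεdef]; ring
  have h10 : 0 < (ε * t) * (ε * t) := by positivity
  linarith

/-- For the surface `y = Φ(x) + v²/2`, the set `Ã` is not a countable union of `C¹`
submanifolds of any dimensions. -/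
theorem not_union (hK : IsClosed K) (hne : K.Nonempty) (hsub : K ⊆ Icc 0 1)
    (hperf : Preperfect K) (hnd : ∀ x y : ℝ, x < y → ∃ q ∈ Ioo x y, q ∉ K)
    (S : ℕ → Set J2) (d : ℕ → ℕ) (hS : ∀ i, IsSubmanifold 1 (d i) (S i))
    (hU : ⋃ i, S i = tilde (surf K)) : False := by
  have hchart : ∀ i, ∀ z ∈ S i, ∃ (W : Set (EuclideanSpace ℝ (Fin (d i))))
      (φ : EuclideanSpace ℝ (Fin (d i)) → J2) (C : Set (EuclideanSpace ℝ (Fin (d i)))),
      IsOpen W ∧ ContDiffOn ℝ 1 φ W ∧ (∀ u ∈ W, Function.Injective (fderiv ℝ φ u)) ∧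
      IsEmbedding (W.domRestrict φ) ∧ φ '' W ⊆ S i ∧ C ⊆ W ∧ IsCompact C ∧
      φ '' C ∈ 𝓝[S i] z := fun i z hz => by
    simpa using compact_chart (hS i) hz
  choose! W φ C hW hφ hinj hemb hsubS hCW hC hnb using hchart
  have hcount : ∀ i, ∃ t ⊆ S i, t.Countable ∧ S i ⊆ ⋃ z ∈ t, φ i z '' C i z := fun i =>
    TopologicalSpace.countable_cover_nhdsWithin (hnb i)
  choose t htS htc hcover using hcount
  have hKc : CompleteSpace K := hK.completeSpace_coe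
  have : Nonempty K := hne.to_subtype
  have : ∀ i, Countable (t i) := fun i => (htc i).to_subtype
  let G : (Σ i, t i) → Set K := fun j => (fun x : K => P K x) ⁻¹' (φ j.1 j.2.1 '' C j.1 j.2.1)
  have hG : ∀ j, IsClosed (G j) := by
    intro j
    have hj : j.2.1 ∈ S j.1 := htS _ j.2.2
    have h1 : IsCompact (φ j.1 j.2.1 '' C j.1 j.2.1) :=
      (hC _ _ hj).image_of_continuousOn ((hφ _ _ hj).continuousOn.mono (hCW _ _ hj))
    exact h1.isClosed.preimage ((continuous_P hK hne hsub).comp continuous_subtype_val)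
  have hGu : ⋃ j, G j = univ := by
    rw [eq_univ_iff_forall]
    intro x
    have h1 : P K x ∈ ⋃ i, S i := by rw [hU]; exact P_mem hK hne hsub x.2
    obtain ⟨i, hi⟩ := mem_iUnion.mp h1
    obtain ⟨z, hz, hzx⟩ := mem_iUnion₂.mp (hcover i hi)
    exact mem_iUnion.mpr ⟨⟨i, z, hz⟩, hzx⟩
  obtain ⟨j, x, hx⟩ := nonempty_interior_of_iUnion_of_closed hG hGu
  have hj : j.2.1 ∈ S j.1 := htS _ j.2.2
  have h2 : G j ∈ 𝓝 x := mem_interior_iff_mem_nhds.mp hx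
  rw [mem_nhds_subtype] at h2
  obtain ⟨V, hV, hVG⟩ := h2
  obtain ⟨O, hOV, hO, hxO⟩ := mem_nhds_iff.mp hV
  refine no_chart hK hne hsub hperf hnd (hW _ _ hj) (hφ _ _ hj) (hinj _ _ hj) (hemb _ _ hj)
    ((hsubS _ _ hj).trans ?_) hO ?_ ⟨x, x.2, hxO⟩
  · rw [← hU]; exact subset_iUnion _ _
  · intro y hy
    have h3 : (⟨y, hy.1⟩ : K) ∈ G j := hVG (show y ∈ V from hOV hy.2)
    have h4 : P K y ∈ φ j.1 j.2.1 '' C j.1 j.2.1 := h3
    exact image_mono (hCW _ _ hj) h4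

end Pool.Agent.Q139.Jet
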