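import Pool.Agent.Q139.Jet.Defs
import Pool.Agent.Q139.Jet.Bump
import Pool.Agent.Q139.Jet.Cantor

open Set Filter Topology

namespace Pool.Agent.Q139.Jet

/-- The surface `y = Φ(x) + v²/2`. -/
noncomputable def surf (K : Set ℝ) : Set J1 := {z | z.2.1 = Phi K z.1 + z.2.2 ^ 2 / 2}

/-- The curve of singular points. -/
noncomputable def P (K : Set ℝ) (x : ℝ) : J2 := (x, Phi K x, 0, 1)

variable {K : Set ℝ}

theorem isSubmanifold_surf (hK : IsClosed K) (hne : K.Nonempty) (hsub : K ⊆ Icc 0 1) :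
    IsSubmanifold 2 2 (surf K) := by
  intro p _
  set φ : EuclideanSpace ℝ (Fin 2) → J1 := fun u => (u 0, Phi K (u 0) + (u 1) ^ 2 / 2, u 1)
    with hφ
  set ψ : J1 → EuclideanSpace ℝ (Fin 2) := fun z => !₂[z.1, z.2.2] with hψ
  have h0 : ContDiff ℝ 2 (fun u : EuclideanSpace ℝ (Fin 2) => u 0) := by fun_prop
  have h1 : ContDiff ℝ 2 (fun u : EuclideanSpace ℝ (Fin 2) => u 1) := by fun_prop
  have hc : ContDiff ℝ 2 φ := by
    refine h0.prodMk (ContDiff.prodMk ?_ h1)
    exact ((contDiff_Phi hK hne hsub).comp h0).add ((h1.pow 2).div_const 2)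
  have hψd : Differentiable ℝ ψ := by
    rw [differentiable_euclidean]
    intro i
    fin_cases i
    · simp [hψ]
    · simp [hψ]
  have hinv : Function.LeftInverse ψ φ := by
    intro u
    ext i
    fin_cases i <;> simp [hψ, hφ]
  refine ⟨univ, univ, φ, isOpen_univ, mem_univ _, isOpen_univ, hc.contDiffOn, ?_, ?_, ?_⟩
  · intro u _ 
    have h2 : HasFDerivAt (ψ ∘ φ) ((fderiv ℝ ψ (φ u)).comp (fderiv ℝ φ u)) u :=
      (hψd (φ u)).hasFDerivAt.comp u (hc.differentiable (by norm_num) u).hasFDerivAt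
    have h3 : ψ ∘ φ = id := funext hinv
    rw [h3] at h2
    have h4 := h2.unique (hasFDerivAt_id u)
    intro a b hab
    have h5 : ((fderiv ℝ ψ (φ u)).comp (fderiv ℝ φ u)) a =
        ((fderiv ℝ ψ (φ u)).comp (fderiv ℝ φ u)) b := by
      simp only [ContinuousLinearMap.comp_apply]; rw [hab]
    rw [h4] at h5
    simpa using h5
  · have h2 : IsEmbedding φ := hinv.isEmbedding hψd.continuous hc.continuous
    exact h2.comp IsEmbedding.subtypeVal
  · ext z
    simp only [image_univ, mem_range, inter_univ]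
    constructor
    · rintro ⟨u, rfl⟩
      simp [surf, hφ]
    · intro hz
      refine ⟨ψ z, ?_⟩
      have hz' : z.2.1 = Phi K z.1 + z.2.2 ^ 2 / 2 := hz
      apply Prod.ext
      · simp [hφ, hψ]
      · apply Prod.ext
        · simp [hφ, hψ, hz']
        · simp [hφ, hψ]

theorem tangent_surf (hK : IsClosed K) (hne : K.Nonempty) (hsub : K ⊆ Icc 0 1) {b v : J1}
    (hv : v ∈ tangent (surf K) b) : v.2.1 = kf K b.1 * v.1 + b.2.2 * v.2.2 := by
  obtain ⟨γ, h0, hA, hd⟩ := hv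
  have h1 : HasDerivAt (fun t => (γ t).1) v.1 0 := by
    simpa [Function.comp_def] using (hasFDerivAt_fst (𝕜 := ℝ)).comp_hasDerivAt (0:ℝ) hd
  have h2 : HasDerivAt (fun t => (γ t).2) v.2 0 := by
    simpa [Function.comp_def] using (hasFDerivAt_snd (𝕜 := ℝ)).comp_hasDerivAt (0:ℝ) hd
  have h3 : HasDerivAt (fun t => (γ t).2.1) v.2.1 0 := by
    simpa [Function.comp_def] using (hasFDerivAt_fst (𝕜 := ℝ)).comp_hasDerivAt (0:ℝ) h2
  have h4 : HasDerivAt (fun t => (γ t).2.2) v.2.2 0 := by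
    simpa [Function.comp_def] using (hasFDerivAt_snd (𝕜 := ℝ)).comp_hasDerivAt (0:ℝ) h2
  have h5 : HasDerivAt (fun t => Phi K (γ t).1 + (γ t).2.2 ^ 2 / 2)
      (kf K (γ 0).1 * v.1 + (γ 0).2.2 * v.2.2) 0 := by
    have h6 := (hasDerivAt_Phi hK hne hsub (γ 0).1).comp (0:ℝ) h1
    have h7 := (h4.pow 2).div_const 2
    refine (h6.add h7).congr_deriv ?_
    push_cast
    ring
  have h8 : (fun t => (γ t).2.1) = fun t => Phi K (γ t).1 + (γ t).2.2 ^ 2 / 2 :=
    funext fun t => hA t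
  rw [h8] at h3
  have := h3.unique h5
  rw [h0] at this
  exact this

theorem deriv_j1 {f : ℝ → ℝ} (hf : ContDiff ℝ (⊤ : ℕ∞) f) (x : ℝ) :
    HasDerivAt (j1 f) (1, deriv f x, deriv (deriv f) x) x := by
  have hf2 : ContDiff ℝ 1 (deriv f) := by
    have h : ContDiff ℝ (1 + 1) f := hf.of_le (by
      rw [one_add_one_eq_two]
      exact WithTop.coe_le_coe.mpr (le_top : ((2:ℕ∞)) ≤ ⊤))
    exact (contDiff_succ_iff_deriv.mp h).2.2
  have h1 : HasDerivAt f (deriv f x) x :=
    (hf.differentiable (by simp) x).hasDerivAt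
  have h2 : HasDerivAt (deriv f) (deriv (deriv f) x) x :=
    (hf2.differentiable (by simp) x).hasDerivAt
  exact (hasDerivAt_id x).prodMk (h1.prodMk h2)

theorem mem_tilde (hK : IsClosed K) (hne : K.Nonempty) (hsub : K ⊆ Icc 0 1) {z : J2}
    (hz : z ∈ tilde (surf K)) : z.2.2.1 * (1 - z.2.2.2) = kf K z.1 := by
  obtain ⟨f, hf, x, rfl, hA, hspan⟩ := hz
  set v := deriv f x with hv
  set w := deriv (deriv f) x with hw
  show v * (1 - w) = kf K x
  by_contra hcon
  apply hspan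
  have hA' : f x = Phi K x + v ^ 2 / 2 := hA
  have hD := deriv_j1 hf x
  set R := LinearMap.range (fderiv ℝ (j1 f) x : ℝ →ₗ[ℝ] J1) ⊔
      Submodule.span ℝ (tangent (surf K) (j1 f x)) with hR
  have e1 : ((1:ℝ), v, w) ∈ R := by
    refine Submodule.mem_sup_left ⟨1, ?_⟩
    have : fderiv ℝ (j1 f) x 1 = (1, v, w) := by
      rw [fderiv_apply_one_eq_deriv]; exact hD.deriv
    exact this
  have e2 : ((1:ℝ), kf K x, (0:ℝ)) ∈ R := by
    refine Submodule.mem_sup_right (Submodule.subset_span ?_)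
    refine ⟨fun t => (x + t, Phi K (x + t) + v ^ 2 / 2, v), ?_, ?_, ?_⟩
    · simp [j1, hA', hv]
    · intro t; simp [surf]
    · have h1 : HasDerivAt (fun t : ℝ => x + t) 1 0 := (hasDerivAt_id (0:ℝ)).const_add x
      have h2 : HasDerivAt (fun t : ℝ => Phi K (x + t) + v ^ 2 / 2) (kf K x) 0 := by
        have h3 : HasDerivAt (Phi K) (kf K (x + 0)) (x + 0) := hasDerivAt_Phi hK hne hsub _
        have h4 := (h3.comp (0:ℝ) h1).add_const (v ^ 2 / 2)
        simpa [Function.comp_def] using h4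
      exact h1.prodMk (h2.prodMk (hasDerivAt_const _ _))
  have e3 : ((0:ℝ), v, (1:ℝ)) ∈ R := by
    refine Submodule.mem_sup_right (Submodule.subset_span ?_)
    refine ⟨fun t => (x, Phi K x + (v + t) ^ 2 / 2, v + t), ?_, ?_, ?_⟩
    · simp [j1, hA', hv]
    · intro t; simp [surf]
    · have h1 : HasDerivAt (fun t : ℝ => v + t) 1 0 := (hasDerivAt_id (0:ℝ)).const_add v
      have h2 : HasDerivAt (fun t : ℝ => Phi K x + (v + t) ^ 2 / 2) v 0 := by
        have h4 := ((h1.pow 2).div_const 2).const_add (Phi K x)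
        refine h4.congr_deriv ?_
        simp
      exact (hasDerivAt_const _ _).prodMk (h2.prodMk h1)
  rw [eq_top_iff]
  rintro ⟨α, β, γ⟩ -
  have hne' : v - kf K x - w * v ≠ 0 := by
    intro h; apply hcon; linarith
  set p := (β - α * kf K x - γ * v) / (v - kf K x - w * v) with hp
  have h5 : ((α, β, γ) : J1) = p • ((1:ℝ), v, w) + (α - p) • ((1:ℝ), kf K x, (0:ℝ)) +
      (γ - p * w) • ((0:ℝ), v, (1:ℝ)) := by
    have h6 : p * (v - kf K x - w * v) = β - α * kf K x - γ * v := by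
      rw [hp]; exact div_mul_cancel₀ _ hne'
    ext
    · simp
    · simp; linarith
    · simp
  rw [h5]
  exact R.add_mem (R.add_mem (R.smul_mem _ e1) (R.smul_mem _ e2)) (R.smul_mem _ e3)

theorem P_mem (hK : IsClosed K) (hne : K.Nonempty) (hsub : K ⊆ Icc 0 1) {x : ℝ} (hx : x ∈ K) :
    P K x ∈ tilde (surf K) := by
  set f : ℝ → ℝ := fun t => Phi K x + (t - x) ^ 2 / 2 with hf
  have hfc : ContDiff ℝ (⊤ : ℕ∞) f := by
    rw [hf]; fun_prop
  have hd : ∀ t, HasDerivAt f (t - x) t := by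
    intro t
    have h1 : HasDerivAt (fun t : ℝ => t - x) 1 t := (hasDerivAt_id t).sub_const x
    refine (((h1.pow 2).div_const 2).const_add (Phi K x)).congr_deriv ?_
    simp
  have hd1 : deriv f = fun t => t - x := funext fun t => (hd t).deriv
  have hd2 : ∀ t, deriv (deriv f) t = 1 := by
    intro t
    rw [hd1]
    exact ((hasDerivAt_id t).sub_const x).deriv
  have hj1 : j1 f x = (x, Phi K x, 0) := by
    simp [j1, hf]
  refine ⟨f, hfc, x, ?_, ?_, ?_⟩
  · simp only [P, j2, hd1, sub_self]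
    simp [hf]
  · rw [hj1]; simp [surf]
  · intro htop
    have hD := deriv_j1 hfc x
    set N : Submodule ℝ J1 := LinearMap.ker
      ((LinearMap.fst ℝ ℝ ℝ).comp (LinearMap.snd ℝ ℝ (ℝ × ℝ))) with hN
    have h1 : LinearMap.range (fderiv ℝ (j1 f) x : ℝ →ₗ[ℝ] J1) ≤ N := by
      rintro _ ⟨t, rfl⟩
      have h2 : fderiv ℝ (j1 f) x t = t • (1, deriv f x, deriv (deriv f) x) := by
        rw [← hD.deriv, ← fderiv_apply_one_eq_deriv, ← map_smul]; simp
      have h3 : ((fderiv ℝ (j1 f) x t) : J1).2.1 = 0 := by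
        rw [h2, hd1]; simp
      simpa [hN, LinearMap.mem_ker] using h3
    have h2 : Submodule.span ℝ (tangent (surf K) (j1 f x)) ≤ N := by
      rw [Submodule.span_le]
      intro v hv
      have h3 := tangent_surf hK hne hsub hv
      rw [hj1] at h3
      simp only [kf_mem hx] at h3
      simpa [hN, LinearMap.mem_ker] using h3
    have h3 : (⊤ : Submodule ℝ J1) ≤ N := by
      rw [← htop]; exact sup_le h1 h2
    have h4 : ((0:ℝ), (1:ℝ), (0:ℝ)) ∈ N := h3 trivial
    simp [hN, LinearMap.mem_ker] at h4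

end Pool.Agent.Q139.Jet
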